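import Pool.Agent.W205.K5.Stm

/-!
# K5-CHX: the chain inequality with an integral number of steps
-/

set_option autoImplicit false

namespace Pool.Agent.W171.K5

open Finset Pool.Agent.W205.K5 Pool.Agent.W890.SF

theorem chx (hB : S_BAS) (hA : S_ADD) (hK : S_KEY) : S_CHX := by
  intro ι _ b q c x w n S hc
  obtain ⟨N, hN⟩ : ∃ N, N = S.card := ⟨_, rfl⟩
  induction N generalizing S n with
  | zero =>
    intro hb hx hx0 hxw hw hs h1 h2
    have hS : S = ∅ := card_eq_zero.1 hN.symm
    subst hS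
    obtain ⟨e1, e2, e3, e4, _⟩ := hB ι b q c ∅ hc hb
    rcases Nat.eq_zero_or_pos n with hn | hn
    · subst hn
      simp only [Nat.cast_zero, zero_mul, add_zero, pow_zero, mul_one]
      exact e4
    · exfalso
      have hwc : w ≤ c := le_of_mul_le_mul_right (hw.trans e3) e1
      have hn1 : (1 : ℝ) ≤ n := by exact_mod_cast hn
      have hnx : 1 * x ≤ n * x := mul_le_mul_of_nonneg_right hn1 hx0.le
      simp only [sum_empty, sub_zero] at h1
      linarith
  | succ N ih =>
    intro hb hx hx0 hxw hw hs h1 h2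
    have hw0 : 0 < w := lt_of_lt_of_le hx0 hxw
    have hne : S.Nonempty := card_pos.1 (by omega)
    obtain ⟨a1, a2, a3, a4, a5⟩ := hB ι b q c S hc hb
    rcases Nat.eq_zero_or_pos n with hn | hn
    · subst hn
      simp only [Nat.cast_zero, zero_mul, add_zero, pow_zero, mul_one]
      exact a4
    obtain ⟨x0, hx0S, hkey⟩ := hK ι b q c S hc hb hne
    have hb' : ∀ i ∈ S.erase x0, 0 < b i ∧ 0 ≤ q i ∧ q i < 1 := fun i hi => hb i (mem_of_mem_erase hi)
    have hx' : ∀ i ∈ S.erase x0, b i * q i ≤ x := fun i hi => hx i (mem_of_mem_erase hi)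
    obtain ⟨e1, e2, e3, e4, e5⟩ := hB ι b q c (S.erase x0) hc hb'
    have hadd := hA ι b q c S x0 hc hb hx0S
    have hsum := Finset.add_sum_erase S (fun i => b i * q i) hx0S
    have hmu0 : 0 ≤ b x0 * q x0 := mul_nonneg (hb x0 hx0S).1.le (hb x0 hx0S).2.1
    have hmux : b x0 * q x0 ≤ x := hx x0 hx0S
    obtain ⟨mu, hmu⟩ : ∃ mu, mu = b x0 * q x0 := ⟨_, rfl⟩
    obtain ⟨Tt, hTt⟩ : ∃ s, s = ∑ i ∈ S.erase x0, b i * q i := ⟨_, rfl⟩
    have hSg : ∑ i ∈ S, b i * q i = mu + Tt := by rw [← hsum, hmu, hTt]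
    rw [← hmu] at hadd hmu0 hmux
    rw [← hTt] at e4
    rw [hSg] at hs h1 h2 ⊢
    have hwU : w * PU b q c (S.erase x0) ≤ PG b q c (S.erase x0) := by
      have g1 : w * PU b q c S * PU b q c (S.erase x0) ≤
          PG b q c S * PU b q c (S.erase x0) := mul_le_mul_of_nonneg_right hw e1.le
      have g2 : (w * PU b q c (S.erase x0)) * PU b q c S ≤
          PG b q c (S.erase x0) * PU b q c S := by linarith
      exact le_of_mul_le_mul_right g2 a1
    have g1 : PG b q c (S.erase x0) * (1 - mu / w) ≤ PG b q c S := by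
      have g2 : PU b q c (S.erase x0) ≤ PG b q c (S.erase x0) / w := by
        rw [le_div_iff₀ hw0]
        linarith
      have g3 := mul_le_mul_of_nonneg_left g2 hmu0
      have g4 : PG b q c (S.erase x0) * (1 - mu / w) =
        PG b q c (S.erase x0) - mu * (PG b q c (S.erase x0) / w) := by ring
      rw [g4]
      linarith
    have hbase : 0 ≤ 1 - x / w := by
      have : x / w ≤ 1 := (div_le_one hw0).2 hxw
      linarith
    have hmuw : 0 ≤ 1 - mu / w := by
      have : mu / w ≤ 1 := (div_le_one hw0).2 (hmux.trans hxw)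
      linarith
    have hcard : N = (S.erase x0).card := by
      rw [card_erase_of_mem hx0S]
      omega
    obtain ⟨s, hsd⟩ : ∃ s, s = c - (mu + Tt) := ⟨_, rfl⟩
    have hs' : c - Tt = s + mu := by rw [hsd]; ring
    rw [← hsd] at hs h1 h2 ⊢
    obtain ⟨m, rfl⟩ : ∃ m, n = m + 1 := ⟨n - 1, by omega⟩
    push_cast at h1 h2 ⊢
    rcases le_or_gt (s + mu + ((m : ℝ) + 1) * x) w with hcase | hcase
    · have hIH := ih (m + 1) (S.erase x0) hcard hb' hx' hx0 hxw hwU
        (by rw [← hTt, hs']; linarith) (by rw [← hTt, hs']; push_cast; exact hcase)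
        (by rw [← hTt, hs']; push_cast; linarith)
      rw [← hTt, hs'] at hIH
      push_cast at hIH
      have k1 : s + ((m : ℝ) + 1) * x ≤ (s + mu + ((m : ℝ) + 1) * x) * (1 - mu / w) := by
        have : (s + mu + ((m : ℝ) + 1) * x) * (1 - mu / w) - (s + ((m : ℝ) + 1) * x) =
            mu * (w - (s + mu + ((m : ℝ) + 1) * x)) / w := by
          field_simp
          ring
        have h3 : 0 ≤ mu * (w - (s + mu + ((m : ℝ) + 1) * x)) / w :=
          div_nonneg (mul_nonneg hmu0 (by linarith)) hw0.le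
        linarith
      calc (s + ((m : ℝ) + 1) * x) * (1 - x / w) ^ (m + 1)
          ≤ ((s + mu + ((m : ℝ) + 1) * x) * (1 - mu / w)) * (1 - x / w) ^ (m + 1) :=
            mul_le_mul_of_nonneg_right k1 (pow_nonneg hbase _)
        _ = ((s + mu + ((m : ℝ) + 1) * x) * (1 - x / w) ^ (m + 1)) * (1 - mu / w) := by ring
        _ ≤ PG b q c (S.erase x0) * (1 - mu / w) := mul_le_mul_of_nonneg_right hIH hmuw
        _ ≤ PG b q c S := g1
    · have hIH := ih m (S.erase x0) hcard hb' hx' hx0 hxw hwU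
        (by rw [← hTt, hs']; linarith) (by rw [← hTt, hs']; linarith)
        (by rw [← hTt, hs']; linarith)
      rw [← hTt, hs'] at hIH
      have k1 : (s + ((m : ℝ) + 1) * x) * (1 - x / w) ≤ (s + mu + (m : ℝ) * x) * (1 - mu / w) := by
        have : (s + mu + (m : ℝ) * x) * (1 - mu / w) - (s + ((m : ℝ) + 1) * x) * (1 - x / w) =
            (x - mu) * (s + mu + ((m : ℝ) + 1) * x - w) / w := by
          field_simp
          ring
        have h3 : 0 ≤ (x - mu) * (s + mu + ((m : ℝ) + 1) * x - w) / w :=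
          div_nonneg (mul_nonneg (by linarith) (by linarith)) hw0.le
        linarith
      calc (s + ((m : ℝ) + 1) * x) * (1 - x / w) ^ (m + 1)
          = ((s + ((m : ℝ) + 1) * x) * (1 - x / w)) * (1 - x / w) ^ m := by ring
        _ ≤ ((s + mu + (m : ℝ) * x) * (1 - mu / w)) * (1 - x / w) ^ m :=
            mul_le_mul_of_nonneg_right k1 (pow_nonneg hbase _)
        _ = ((s + mu + (m : ℝ) * x) * (1 - x / w) ^ m) * (1 - mu / w) := by ring
        _ ≤ PG b q c (S.erase x0) * (1 - mu / w) := mul_le_mul_of_nonneg_right hIH hmuw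
        _ ≤ PG b q c S := g1

end Pool.Agent.W171.K5
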